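import Pool.Agent.Q27.Flood

/-! The coset-counting algorithm in the free group of rank two ends within `[F₂ : H]` steps. -/

namespace Pool.Agent.Results.MP_f02465_al.StepBound

/-- The free group of rank two, on the basis `a = of 0`, `b = of 1`. -/
abbrev F2 := FreeGroup (Fin 2)

/-- The symmetric alphabet `{a, b, a⁻¹, b⁻¹}`. -/
def Xi : Set F2 :=
  {FreeGroup.of 0, FreeGroup.of 1, (FreeGroup.of 0)⁻¹, (FreeGroup.of 1)⁻¹}

/-- The edges of the directed coset graph: one edge `rH → h r H` for each left coset `rH` and each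
`h ∈ Ξ`. -/
abbrev Edge (H : Subgroup F2) := (F2 ⧸ H) × Xi

/-- Initial vertex of an edge. -/
def source {H : Subgroup F2} (e : Edge H) : F2 ⧸ H := e.1

/-- Terminal vertex of an edge. -/
def target {H : Subgroup F2} (e : Edge H) : F2 ⧸ H := (e.2 : F2) • e.1

/-- The set `E_i` of edges highlighted at step `i` (steps are numbered from `1`; the value at `0`
is a dummy). -/
def E (H : Subgroup F2) (y : F2) : ℕ → Set (Edge H)
  | 0 => ∅
  | 1 => {e | source e = (y : F2 ⧸ H)}
  | (i + 2) => {e | (∃ f ∈ E H y (i + 1), target f = source e) ∧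
      ¬ ∃ f ∈ E H y (i + 1), source f = target e ∧ target f = source e}

theorem inv_mem {g : F2} (h : g ∈ Xi) : g⁻¹ ∈ Xi := by
  simp only [Xi, Set.mem_insert_iff, Set.mem_singleton_iff] at h ⊢
  rcases h with h | h | h | h <;> subst h <;> simp

/-- Inversion of letters. -/
def inv (g : Xi) : Xi := ⟨(g : F2)⁻¹, inv_mem g.2⟩

/-- The action of letters on cosets. -/
def act (H : Subgroup F2) (g : Xi) (v : F2 ⧸ H) : F2 ⧸ H := (g : F2) • v

theorem act_inv (H : Subgroup F2) (g : Xi) (v : F2 ⧸ H) : act H (inv g) (act H g v) = v := by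
  simp [act, inv]

theorem inv_inv' (g : Xi) : inv (inv g) = g := by
  apply Subtype.ext
  simp [inv]

open Q27.Flood

theorem key (H : Subgroup F2) (y : F2) (i : ℕ) :
    (∀ x, x ∈ C (act H) (y : F2 ⧸ H) (i + 1) ↔ ∃ e ∈ E H y (i + 1), target e = x) ∧
    (∀ e, e ∈ E H y (i + 2) ↔
      source e ∈ C (act H) (y : F2 ⧸ H) (i + 1) ∧ target e ∉ C (act H) (y : F2 ⧸ H) i) := by
  have hrev : ∀ (e : Edge H), target ((target e, inv e.2) : Edge H) = source e := by
    intro e
    exact act_inv H e.2 e.1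
  induction i with
  | zero =>
    have h1 : ∀ x, x ∈ C (act H) (y : F2 ⧸ H) 1 ↔ ∃ e ∈ E H y 1, target e = x := by
      intro x
      constructor
      · rintro ⟨t, ht, h, rfl⟩
        exact ⟨(t, h), ht, rfl⟩
      · rintro ⟨e, he, rfl⟩
        exact ⟨e.1, he, e.2, rfl⟩
    refine ⟨h1, ?_⟩
    intro e
    constructor
    · rintro ⟨h2, h3⟩
      refine ⟨(h1 _).2 h2, fun h4 => h3 ?_⟩
      exact ⟨(target e, inv e.2), h4, rfl, hrev e⟩
    · rintro ⟨h2, h3⟩
      refine ⟨(h1 _).1 h2, ?_⟩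
      rintro ⟨f, hf, hf2, -⟩
      apply h3
      change target e = (y : F2 ⧸ H)
      rw [← hf2]
      exact hf
  | succ i ih =>
    obtain ⟨ih1, ih2⟩ := ih
    have h1 : ∀ x, x ∈ C (act H) (y : F2 ⧸ H) (i + 2) ↔ ∃ e ∈ E H y (i + 2), target e = x := by
      intro x
      constructor
      · rintro ⟨⟨t, ht, h, rfl⟩, h2⟩
        exact ⟨(t, h), (ih2 _).2 ⟨ht, h2⟩, rfl⟩
      · rintro ⟨e, he, rfl⟩
        have h3 := (ih2 _).1 he
        exact ⟨⟨e.1, h3.1, e.2, rfl⟩, h3.2⟩
    refine ⟨h1, ?_⟩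
    intro e
    constructor
    · rintro ⟨h2, h3⟩
      refine ⟨(h1 _).2 h2, fun h4 => h3 ?_⟩
      refine ⟨(target e, inv e.2), (ih2 _).2 ⟨h4, ?_⟩, rfl, hrev e⟩
      rw [hrev e]
      have h5 : source e ∈ C (act H) (y : F2 ⧸ H) (i + 2) := (h1 _).2 h2
      exact fun h6 => h5.2 h6
    · rintro ⟨h2, h3⟩
      refine ⟨(h1 _).1 h2, ?_⟩
      rintro ⟨f, hf, hf2, -⟩
      apply h3
      rw [← hf2]
      exact ((ih2 _).1 hf).1

/-- For every subgroup `H` of finite index of the free group of rank two (whether or not it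
contains an element of odd length) and every `y`, no edge is highlighted at any step
`i > [F₂ : H]`. -/
theorem result (H : Subgroup F2) [H.FiniteIndex] (y : F2) (i : ℕ) (hi : H.index < i) :
    E H y i = ∅ := by
  classical
  rw [Set.eq_empty_iff_forall_notMem]
  intro e he
  obtain ⟨j, rfl⟩ : ∃ j, i = j + 1 := ⟨i - 1, by omega⟩
  have h1 : (C (act H) (y : F2 ⧸ H) (j + 1)).Nonempty :=
    ⟨target e, ((key H y j).1 _).2 ⟨e, he, rfl⟩⟩
  have : Finite (F2 ⧸ H) := inferInstance
  letI : Fintype (F2 ⧸ H) := Fintype.ofFinite _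
  haveI : Finite Xi := by
    unfold Xi
    exact Set.Finite.to_subtype (Set.toFinite _)
  letI : Fintype Xi := Fintype.ofFinite _
  haveI : Nonempty Xi := ⟨⟨FreeGroup.of 0, by simp [Xi]⟩⟩
  have h2 := main (act H) inv (y : F2 ⧸ H) (act_inv H) inv_inv' (j + 1) h1
  rw [Subgroup.index_eq_card, Nat.card_eq_fintype_card] at hi
  omega

end Pool.Agent.Results.MP_f02465_al.StepBound
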